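import Pool.Agent.helper54.UG.Spec3
import Pool.Agent.helper78.UG.CNJ

/-!
# Row ug:SCJ, change of basis for theorem O
-/

set_option autoImplicit false

namespace Pool.Agent.UG

open Matrix Pool.Agent.H48SL

theorem SCJ_zd {n : ℕ} (g : SLZ n) (H : Subgroup (SLZ n)) (hZ : ZDense H) :
    ZDense (H.comap (MulAut.conj g).toMonoidHom) := by
  have hmem : ∀ h : SLZ n, h ∈ H.comap (MulAut.conj g).toMonoidHom ↔ g * h * g⁻¹ ∈ H :=
    fun h => Iff.rfl
  intro P hP x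
  have hF : IsPoly (fun x : SLZ n => MvPolynomial.eval
      (fun y : Fin n × Fin n =>
        (x : Matrix (Fin n) (Fin n) ℤ) y.1 y.2) P) := ⟨P, fun _ => rfl⟩
  obtain ⟨P', hP'⟩ := ip_mul_right (ip_mul_left hF g⁻¹) g
  have h1 := hZ P' (fun h hh => by
    rw [← hP' h]
    apply hP
    rw [hmem]
    have h2 : g * (g⁻¹ * (h * g)) * g⁻¹ = h := by group
    rw [h2]
    exact hh) (g * x * g⁻¹)
  rw [← hP' (g * x * g⁻¹)] at h1
  have h3 : g⁻¹ * (g * x * g⁻¹ * g) = x := by group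
  simp only [h3] at h1
  exact h1

theorem SCJ : SCJ_stmt := by
  intro n hn S H hZ hO v hv
  obtain ⟨g, c, hg⟩ := CNJ_vec hn v hv
  have hmem : ∀ h : SLZ (n + 1), h ∈ H.comap (MulAut.conj g).toMonoidHom ↔ g * h * g⁻¹ ∈ H :=
    fun h => Iff.rfl
  have hc : c ≠ 0 := by
    rintro rfl
    rw [zero_smul] at hg
    have h1 : qg g⁻¹ *ᵥ (qg g *ᵥ e0 n) = e0 n := by
      rw [mulVec_mulVec, qg_inv_mul, one_mulVec]
    rw [hg, mulVec_zero] at h1
    have h2 := congrFun h1 0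
    rw [e0, Pi.single_eq_same, Pi.zero_apply] at h2
    exact zero_ne_one h2
  refine ⟨g, c, H.comap (MulAut.conj g).toMonoidHom, hc, hg, SCJ_zd g H hZ, ?_, ?_⟩
  · intro x hx
    have ht : (qg g⁻¹)ᵀ * (qg g)ᵀ = 1 := by
      rw [← transpose_mul, qg_mul_inv, transpose_one]
    have h1 : (qg (g * x * g⁻¹))ᵀ * S * qg (g * x * g⁻¹) = S := by
      rw [qg_mul, qg_mul, transpose_mul, transpose_mul]
      calc (qg g⁻¹)ᵀ * ((qg x)ᵀ * (qg g)ᵀ) * S * (qg g * qg x * qg g⁻¹)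
          = (qg g⁻¹)ᵀ * ((qg x)ᵀ * ((qg g)ᵀ * S * qg g) * qg x) * qg g⁻¹ := by
            simp only [mul_assoc]
        _ = (qg g⁻¹)ᵀ * ((qg g)ᵀ * S * qg g) * qg g⁻¹ := by rw [hx]
        _ = ((qg g⁻¹)ᵀ * (qg g)ᵀ) * S * (qg g * qg g⁻¹) := by simp only [mul_assoc]
        _ = S := by rw [ht, qg_mul_inv, one_mul, mul_one]
    obtain ⟨k, hk, hkH⟩ := hO _ h1
    refine ⟨k, hk, ?_⟩
    rw [hmem]
    have h2 : g * x ^ k * g⁻¹ = (g * x * g⁻¹) ^ k := (conj_pow).symm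
    rw [h2]
    exact hkH
  · intro hfi
    have h1 : (H.comap (MulAut.conj g).toMonoidHom).index = H.index :=
      Subgroup.index_comap_of_surjective H (MulAut.conj g).surjective
    exact ⟨by rw [← h1]; exact hfi.index_ne_zero⟩

end Pool.Agent.UG
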